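import Pool.Agent.Helper19.UE.Key

/-!
Finiteness for the unit equation over a field with a Northcott height.
-/

namespace Pool.Agent.Helper19.UE

open Height AdmissibleAbsValues

variable {K : Type*} [Field K] [AdmissibleAbsValues K]

lemma le_h1_arch {v : AbsoluteValue K ℝ} (hv : v ∈ archAbsVal (K := K)) (x : K) :
    v x ≤ mulHeight₁ x := by
  classical
  rw [mulHeight₁_eq]
  obtain ⟨t, ht⟩ := Multiset.exists_cons_of_mem hv
  rw [ht, Multiset.map_cons, Multiset.prod_cons]
  have h1 : 1 ≤ (t.map fun v ↦ max (v x) 1).prod := Multiset.one_le_prod_map fun _ _ ↦ le_max_right ..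
  have h2 : 1 ≤ ∏ᶠ v : nonarchAbsVal (K := K), max (v.val x) 1 :=
    one_le_finprod fun _ ↦ le_max_right ..
  have h3 : v x ≤ max (v x) 1 := le_max_left _ _
  have h4 : 0 ≤ max (v x) 1 := zero_le_one.trans (le_max_right _ _)
  calc v x ≤ max (v x) 1 := h3
    _ = max (v x) 1 * 1 * 1 := by ring
    _ ≤ _ := by gcongr

lemma le_h1_nonarch (v : nonarchAbsVal (K := K)) (x : K) : v.val x ≤ mulHeight₁ x := by
  classical
  by_cases hx : x = 0
  · rw [hx, map_zero]
    exact zero_le_one.trans (one_le_mulHeight₁ _)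
  rw [mulHeight₁_eq]
  have h1 : 1 ≤ (archAbsVal.map fun v : AbsoluteValue K ℝ ↦ max (v x) 1).prod :=
    Multiset.one_le_prod_map fun _ _ ↦ le_max_right ..
  have hf : (fun v : nonarchAbsVal (K := K) ↦ max (v.val x) 1).HasFiniteMulSupport := by
    have := AdmissibleAbsValues.hasFiniteMulSupport hx
    refine this.subset fun w hw => ?_
    rw [Function.mem_mulSupport] at hw ⊢
    intro h
    apply hw
    rw [h, max_self]
  have h2 : max (v.val x) 1 ≤ ∏ᶠ v : nonarchAbsVal (K := K), max (v.val x) 1 := by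
    have hs : (fun v : nonarchAbsVal (K := K) ↦ max (v.val x) 1).mulSupport ⊆
        ((insert v hf.toFinset : Finset _) : Set _) := by
      intro w hw
      rw [Finset.coe_insert]
      exact Or.inr (by simpa using hw)
    rw [finprod_eq_finsetProd_of_mulSupport_subset _ hs,
      ← Finset.mul_prod_erase _ _ (Finset.mem_insert_self v _)]
    have : 1 ≤ ∏ w ∈ (insert v hf.toFinset).erase v, max (w.val x) 1 :=
      Finset.one_le_prod fun _ _ => le_max_right _ _
    calc max (v.val x) 1 = max (v.val x) 1 * 1 := by ring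
      _ ≤ _ := by
        have := (zero_le_one (α := ℝ)).trans (le_max_right (v.val x) 1)
        gcongr
  calc v.val x ≤ max (v.val x) 1 := le_max_left _ _
    _ = 1 * max (v.val x) 1 := by ring
    _ ≤ _ := by
        have := (zero_le_one (α := ℝ)).trans (le_max_right (v.val x) 1)
        gcongr

lemma h1_le (X : Fin 3 → K) (h2 : X 2 = -1) (i : Fin 3) : mulHeight₁ (X i) ≤ mulHeight X := by
  have h := mulHeight_comp_le ![i, 2] X
  have e : X ∘ ![i, 2] = -![-X i, 1] := by
    ext j
    fin_cases j
    · simp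
    · simp [h2]
  rw [e, mulHeight_neg, ← mulHeight₁_eq_mulHeight, mulHeight₁_neg] at h
  exact h

/-- Bound for the height of a triple by a bound at finitely many places. -/
lemma mulHeight_le_pow {ι : Type*} [Finite ι] [Nonempty ι] {z : ι → K} (hz : z ≠ 0)
    (S : Finset (nonarchAbsVal (K := K))) {E : ℝ} (hE : 0 < E)
    (ha : ∀ v ∈ archAbsVal (K := K), ∀ i, v (z i) ≤ E)
    (hS : ∀ v ∈ S, ∀ i, v.val (z i) ≤ E)
    (hn : ∀ v : nonarchAbsVal (K := K), v ∉ S → ∀ i, v.val (z i) ≤ 1) :
    mulHeight z ≤ E ^ (totalWeight K + S.card) := by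
  classical
  rw [mulHeight_eq hz, pow_add]
  have h1 : (archAbsVal.map (fun v : AbsoluteValue K ℝ ↦ ⨆ i, v (z i))).prod ≤
      E ^ totalWeight K := by
    have e : E ^ totalWeight K = (archAbsVal.map (fun _ : AbsoluteValue K ℝ ↦ E)).prod := by
      rw [Multiset.map_const', Multiset.prod_replicate, totalWeight]
    rw [e]
    exact Multiset.prod_map_le_prod_map₀ _ _ (fun _ _ ↦ Real.iSup_nonneg_of_nonnegHomClass ..)
      fun v hv ↦ ciSup_le fun j ↦ ha v hv j
  have h2 : ∏ᶠ v : nonarchAbsVal (K := K), ⨆ i, v.val (z i) ≤ E ^ S.card := by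
    have e : E ^ S.card = ∏ᶠ v : nonarchAbsVal (K := K), (if v ∈ S then E else 1) := by
      rw [finprod_eq_finsetProd_of_mulSupport_subset (s := S)]
      · rw [← Finset.prod_const]
        exact Finset.prod_congr rfl fun v hv => by rw [if_pos hv]
      · intro v hv
        rw [Function.mem_mulSupport] at hv
        by_contra h
        exact hv (if_neg (by simpa using h))
    rw [e]
    refine finprod_le_finprod (finSupp_iSup hz) (fun _ ↦ Real.iSup_nonneg_of_nonnegHomClass ..) ?_ ?_
    · refine (S.finite_toSet).subset fun v hv => ?_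
      rw [Function.mem_mulSupport] at hv
      by_contra h
      exact hv (if_neg (by simpa using h))
    · intro v
      dsimp only
      by_cases hv : v ∈ S
      · rw [if_pos hv]
        exact ciSup_le fun j ↦ hS v hv j
      · rw [if_neg hv]
        exact ciSup_le fun j ↦ hn v hv j
  have h3 : 0 ≤ ∏ᶠ v : nonarchAbsVal (K := K), ⨆ i, v.val (z i) :=
    finprod_nonneg fun _ ↦ Real.iSup_nonneg_of_nonnegHomClass ..
  gcongr

end Pool.Agent.Helper19.UE
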