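import Pool.Agent.Helper19.UE.Pade

/-!
The two Pade triples `P, Q`.
-/

open Finset.HasAntidiagonal (antidiagonal)

namespace Pool.Agent.Helper19.UE

/-- First Pade triple. -/
def P {R : Type*} [CommRing R] (n : ℕ) (x : Fin 3 → R) : Fin 3 → R :=
  ![(-1) ^ (n + 1) * S (n + 1) n (n + 1) (x 2) (-x 1),
    (-1) ^ (n + 1) * (x 1 * S n (n + 1) (n + 1) (-x 2) (x 0)),
    (-1) ^ n * S (n + 1) (n + 1) n (x 1) (-x 0)]

/-- Second Pade triple. -/
def Q {R : Type*} [CommRing R] (n : ℕ) (x : Fin 3 → R) : Fin 3 → R :=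
  ![(-1) ^ (n + 1) * (x 0 * S n (n + 1) (n + 1) (x 2) (-x 1)),
    (-1) ^ n * S (n + 1) n (n + 1) (-x 2) (x 0),
    (-1) ^ (n + 1) * S (n + 1) n (n + 1) (x 1) (-x 0)]

lemma map_P {R R' : Type*} [CommRing R] [CommRing R'] (f : R →+* R') (n : ℕ) (x : Fin 3 → R)
    (i : Fin 3) : f (P n x i) = P n (fun j => f (x j)) i := by
  fin_cases i <;> simp [P, map_S]

lemma map_Q {R R' : Type*} [CommRing R] [CommRing R'] (f : R →+* R') (n : ℕ) (x : Fin 3 → R)
    (i : Fin 3) : f (Q n x i) = Q n (fun j => f (x j)) i := by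
  fin_cases i <;> simp [Q, map_S]

lemma P_orth_field {K : Type*} [Field K] (n : ℕ) (x : Fin 3 → K) (h : x 0 + x 1 + x 2 = 0)
    (h0 : x 0 ≠ 0) (h1 : x 1 ≠ 0) (h2 : x 2 ≠ 0) :
    x 0 ^ (2 * (n + 1)) * P n x 0 + x 1 ^ (2 * (n + 1)) * P n x 1 +
      x 2 ^ (2 * (n + 1)) * P n x 2 = 0 := by
  have := S_id_field h h0 h1 h2 (n + 1) n (n + 1)
  rw [show n + (n + 1) + 1 = 2 * (n + 1) by ring, show n + 1 + (n + 1) + 1 = 2 * (n + 1) + 1 by ring,
    show n + 1 + n + 1 = 2 * (n + 1) by ring] at this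
  simp only [P, Matrix.cons_val_zero, Matrix.cons_val_one, Matrix.cons_val]
  linear_combination this

lemma Q_orth_field {K : Type*} [Field K] (n : ℕ) (x : Fin 3 → K) (h : x 0 + x 1 + x 2 = 0)
    (h0 : x 0 ≠ 0) (h1 : x 1 ≠ 0) (h2 : x 2 ≠ 0) :
    x 0 ^ (2 * (n + 1)) * Q n x 0 + x 1 ^ (2 * (n + 1)) * Q n x 1 +
      x 2 ^ (2 * (n + 1)) * Q n x 2 = 0 := by
  have := S_id_field h h0 h1 h2 n (n + 1) (n + 1)
  rw [show n + (n + 1) + 1 = 2 * (n + 1) by ring,
    show n + 1 + (n + 1) + 1 = 2 * (n + 1) + 1 by ring] at this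
  simp only [Q, Matrix.cons_val_zero, Matrix.cons_val_one, Matrix.cons_val]
  linear_combination this

open Polynomial

/-- The generic point of the line. -/
noncomputable def pt (K : Type*) [Field K] : Fin 3 → K[X] := ![X, 1 - X, -1]

lemma P_orth_poly (K : Type*) [Field K] (n : ℕ) :
    (X : K[X]) ^ (2 * (n + 1)) * P n (pt K) 0 + (1 - X) ^ (2 * (n + 1)) * P n (pt K) 1 +
      P n (pt K) 2 = 0 := by
  apply IsFractionRing.injective K[X] (FractionRing K[X])
  have hx : (1 - X : K[X]) ≠ 0 := by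
    intro h
    have := congrArg (eval 0) h
    simp at this
  have := P_orth_field (K := FractionRing K[X]) n (fun j => algebraMap K[X] (FractionRing K[X]) (pt K j))
    (by simp [pt]) (by simpa [pt] using X_ne_zero)
    (by
      have := (map_ne_zero_iff (algebraMap K[X] (FractionRing K[X]))
        (IsFractionRing.injective K[X] (FractionRing K[X]))).2 hx
      simpa [pt] using this) (by simp [pt])
  simp only [map_add, map_mul, map_pow, map_P, map_zero]
  simpa [pt] using this

lemma Q_orth_poly (K : Type*) [Field K] (n : ℕ) :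
    (X : K[X]) ^ (2 * (n + 1)) * Q n (pt K) 0 + (1 - X) ^ (2 * (n + 1)) * Q n (pt K) 1 +
      Q n (pt K) 2 = 0 := by
  apply IsFractionRing.injective K[X] (FractionRing K[X])
  have hx : (1 - X : K[X]) ≠ 0 := by
    intro h
    have := congrArg (eval 0) h
    simp at this
  have := Q_orth_field (K := FractionRing K[X]) n (fun j => algebraMap K[X] (FractionRing K[X]) (pt K j))
    (by simp [pt]) (by simpa [pt] using X_ne_zero)
    (by
      have := (map_ne_zero_iff (algebraMap K[X] (FractionRing K[X]))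
        (IsFractionRing.injective K[X] (FractionRing K[X]))).2 hx
      simpa [pt] using this) (by simp [pt])
  simp only [map_add, map_mul, map_pow, map_Q, map_zero]
  simpa [pt] using this

lemma natDegree_S {K : Type*} [Field K] (n q r : ℕ) {u v : K[X]} (hu : u.natDegree ≤ 1)
    (hv : v.natDegree ≤ 1) : (S n q r u v).natDegree ≤ n := by
  unfold S
  apply natDegree_sum_le_of_forall_le
  intro ij hij
  rw [Finset.HasAntidiagonal.mem_antidiagonal] at hij
  refine (natDegree_mul_le).trans ?_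
  have h1 : (((Nat.choose (q + ij.1) q : ℕ) : K[X]) * ((Nat.choose (r + ij.2) r : ℕ) : K[X])).natDegree
      ≤ 0 := by
    refine (natDegree_mul_le).trans ?_
    simp
  have h2 : (u ^ ij.2 * v ^ ij.1).natDegree ≤ ij.2 + ij.1 := by
    refine (natDegree_mul_le).trans ?_
    refine add_le_add ((natDegree_pow_le).trans ?_) ((natDegree_pow_le).trans ?_)
    · calc ij.2 * u.natDegree ≤ ij.2 * 1 := Nat.mul_le_mul_left _ hu
        _ = ij.2 := mul_one _
    · calc ij.1 * v.natDegree ≤ ij.1 * 1 := Nat.mul_le_mul_left _ hv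
        _ = ij.1 := mul_one _
  omega

lemma natDegree_sign {K : Type*} [Field K] (m : ℕ) (f : K[X]) :
    ((-1) ^ m * f).natDegree = f.natDegree := by
  rcases neg_one_pow_eq_or K[X] m with h | h <;> simp [h]

lemma pt_deg {K : Type*} [Field K] (i : Fin 3) : (pt K i).natDegree ≤ 1 := by
  fin_cases i
  · simp [pt]
  · simp only [pt]
    exact (natDegree_sub_le _ _).trans (by simp)
  · simp [pt]

lemma natDegree_P {K : Type*} [Field K] (n : ℕ) (i : Fin 3) : (P n (pt K) i).natDegree ≤ n + 1 := by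
  have h := fun i => pt_deg (K := K) i
  have h' : ∀ i, (- pt K i).natDegree ≤ 1 := fun i => by rw [natDegree_neg]; exact h i
  fin_cases i
  · simp only [P, Fin.zero_eta, Matrix.cons_val_zero]
    rw [natDegree_sign]
    exact natDegree_S _ _ _ (h _) (h' _)
  · simp only [P, Fin.mk_one, Matrix.cons_val_one, Matrix.cons_val_zero]
    rw [natDegree_sign]
    refine (natDegree_mul_le).trans ?_
    have := natDegree_S (K := K) n (n + 1) (n + 1) (h' 2) (h 0)
    have := h 1
    omega
  · simp only [P, Fin.reduceFinMk, Matrix.cons_val]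
    rw [natDegree_sign]
    exact natDegree_S _ _ _ (h _) (h' _)

lemma natDegree_Q {K : Type*} [Field K] (n : ℕ) (i : Fin 3) : (Q n (pt K) i).natDegree ≤ n + 1 := by
  have h := fun i => pt_deg (K := K) i
  have h' : ∀ i, (- pt K i).natDegree ≤ 1 := fun i => by rw [natDegree_neg]; exact h i
  fin_cases i
  · simp only [Q, Fin.zero_eta, Matrix.cons_val_zero]
    rw [natDegree_sign]
    refine (natDegree_mul_le).trans ?_
    have := natDegree_S (K := K) n (n + 1) (n + 1) (h 2) (h' 1)
    have := h 0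
    omega
  · simp only [Q, Fin.mk_one, Matrix.cons_val_one, Matrix.cons_val_zero]
    rw [natDegree_sign]
    exact natDegree_S _ _ _ (h' _) (h _)
  · simp only [Q, Fin.reduceFinMk, Matrix.cons_val]
    rw [natDegree_sign]
    exact natDegree_S _ _ _ (h _) (h' _)

/-- The minor is a constant. -/
lemma minor_const (K : Type*) [Field K] (n : ℕ) :
    P n (pt K) 0 * Q n (pt K) 1 - P n (pt K) 1 * Q n (pt K) 0 =
      C ((P n (pt K) 0 * Q n (pt K) 1 - P n (pt K) 1 * Q n (pt K) 0).eval 0) := by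
  set D := P n (pt K) 0 * Q n (pt K) 1 - P n (pt K) 1 * Q n (pt K) 0 with hD
  have h1 := P_orth_poly K n
  have h2 := Q_orth_poly K n
  have h3 : P n (pt K) 1 * Q n (pt K) 2 - P n (pt K) 2 * Q n (pt K) 1 =
      X ^ (2 * (n + 1)) * D := by
    rw [hD]
    linear_combination P n (pt K) 1 * h2 - Q n (pt K) 1 * h1
  have h4 : (P n (pt K) 1 * Q n (pt K) 2 - P n (pt K) 2 * Q n (pt K) 1).natDegree ≤
      2 * (n + 1) := by
    refine (natDegree_sub_le _ _).trans (max_le ?_ ?_) <;>
    · refine (natDegree_mul_le).trans ?_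
      have := natDegree_P (K := K) n 1
      have := natDegree_P (K := K) n 2
      have := natDegree_Q (K := K) n 1
      have := natDegree_Q (K := K) n 2
      omega
  have h5 : D.natDegree = 0 := by
    by_cases hD0 : D = 0
    · simp [hD0]
    · rw [h3, natDegree_mul (pow_ne_zero _ X_ne_zero) hD0, natDegree_X_pow] at h4
      omega
  obtain ⟨c, hc⟩ := natDegree_eq_zero.1 h5
  rw [← hc]
  simp

lemma S_pos {K : Type*} [Field K] [CharZero K] (n q r : ℕ) : S n q r (-1 : K) (-1) ≠ 0 := by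
  have h : S n q r (-1 : K) (-1) = (-1) ^ n *
      ((∑ ij ∈ antidiagonal n, Nat.choose (q + ij.1) q * Nat.choose (r + ij.2) r : ℕ) : K) := by
    unfold S
    rw [Nat.cast_sum, Finset.mul_sum]
    refine Finset.sum_congr rfl fun ij hij => ?_
    rw [Finset.HasAntidiagonal.mem_antidiagonal] at hij
    rw [← hij, ← pow_add, add_comm ij.2, Nat.cast_mul]
    ring
  rw [h]
  refine mul_ne_zero (pow_ne_zero _ (by norm_num)) ?_
  rw [Nat.cast_ne_zero]
  apply ne_of_gt
  apply Finset.sum_pos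
  · intro ij _
    exact Nat.mul_pos (Nat.choose_pos (by omega)) (Nat.choose_pos (by omega))
  · exact ⟨(0, n), by simp⟩

lemma S_zero {K : Type*} [Field K] [CharZero K] (n q r : ℕ) : S n q r (1 : K) 0 ≠ 0 := by
  have h : S n q r (1 : K) 0 = (Nat.choose (r + n) r : K) := by
    unfold S
    rw [Finset.sum_eq_single (0, n)]
    · simp
    · intro ij hij hne
      rw [Finset.HasAntidiagonal.mem_antidiagonal] at hij
      have : ij.1 ≠ 0 := by
        intro h0
        apply hne
        ext <;> simp <;> omega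
      simp [this]
    · intro h
      exact absurd (by simp) h
  rw [h, Nat.cast_ne_zero]
  exact ne_of_gt (Nat.choose_pos (by omega))

/-- Independence at every point. -/
theorem minor_ne {K : Type*} [Field K] [CharZero K] (n : ℕ) (t : K) :
    P n ![t, 1 - t, -1] 0 * Q n ![t, 1 - t, -1] 1 - P n ![t, 1 - t, -1] 1 * Q n ![t, 1 - t, -1] 0
      ≠ 0 := by
  have hev : ∀ t : K, (P n (pt K) 0 * Q n (pt K) 1 - P n (pt K) 1 * Q n (pt K) 0).eval t =
      P n ![t, 1 - t, -1] 0 * Q n ![t, 1 - t, -1] 1 -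
        P n ![t, 1 - t, -1] 1 * Q n ![t, 1 - t, -1] 0 := by
    intro t
    have e : (fun j => evalRingHom t (pt K j)) = ![t, 1 - t, -1] := by
      ext j
      fin_cases j <;> simp [pt]
    rw [← coe_evalRingHom, map_sub, map_mul, map_mul, map_P, map_P, map_Q, map_Q, e]
  rw [← hev, minor_const K n, eval_C, hev]
  have h1 : P n ![(0 : K), 1 - 0, -1] 0 ≠ 0 := by
    simp only [P, Matrix.cons_val_zero, Matrix.cons_val_one, Matrix.cons_val, sub_zero]
    exact mul_ne_zero (pow_ne_zero _ (by norm_num)) (S_pos _ _ _)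
  have h2 : Q n ![(0 : K), 1 - 0, -1] 1 ≠ 0 := by
    simp only [Q, Matrix.cons_val_zero, Matrix.cons_val_one, Matrix.cons_val, neg_neg]
    exact mul_ne_zero (pow_ne_zero _ (by norm_num)) (S_zero _ _ _)
  have h3 : Q n ![(0 : K), 1 - 0, -1] 0 = 0 := by
    simp [Q]
  rw [h3, mul_zero, sub_zero]
  exact mul_ne_zero h1 h2

end Pool.Agent.Helper19.UE
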