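import Pool.Agent.Helper19.UE.Local

/-!
The key inequality: if `z` is orthogonal to `x ^ (2 (n + 1))`, `x = (t, 1 - t, -1)`, then
`H(x) ^ (n + 1) ≤ C ^ (n + 1) H(z)`.
-/

namespace Pool.Agent.Helper19.UE

variable {K : Type*} [Field K]

/-- Cross product. -/
def cr (z R : Fin 3 → K) : Fin 3 → K :=
  ![z 1 * R 2 - z 2 * R 1, z 2 * R 0 - z 0 * R 2, z 0 * R 1 - z 1 * R 0]

lemma cr_eq {y z R : Fin 3 → K} (hy : y 2 = 1) (hz : y 0 * z 0 + y 1 * z 1 + y 2 * z 2 = 0)
    (hR : y 0 * R 0 + y 1 * R 1 + y 2 * R 2 = 0) : cr z R = (cr z R 2) • y := by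
  rw [hy] at hz hR
  ext i
  fin_cases i
  · simp only [cr, Fin.zero_eta, Matrix.cons_val_zero, Matrix.cons_val, Pi.smul_apply, smul_eq_mul]
    linear_combination z 1 * hR - R 1 * hz
  · simp only [cr, Fin.mk_one, Matrix.cons_val_one, Matrix.cons_val_zero, Matrix.cons_val,
      Pi.smul_apply, smul_eq_mul]
    linear_combination R 0 * hz - z 0 * hR
  · simp [hy]

open Height AdmissibleAbsValues

variable [AdmissibleAbsValues K]

lemma key_step (n : ℕ) {x z R : Fin 3 → K} (hx2 : x 2 = -1) (hz0 : z ≠ 0)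
    (hz : x 0 ^ (2 * (n + 1)) * z 0 + x 1 ^ (2 * (n + 1)) * z 1 + x 2 ^ (2 * (n + 1)) * z 2 = 0)
    (hR : x 0 ^ (2 * (n + 1)) * R 0 + x 1 ^ (2 * (n + 1)) * R 1 + x 2 ^ (2 * (n + 1)) * R 2 = 0)
    (hRa : ∀ (v : AbsoluteValue K ℝ) {M : ℝ}, (∀ i, v (x i) ≤ M) →
      ∀ i, v (R i) ≤ 16 ^ (n + 1) * M ^ (n + 1))
    (hRn : ∀ (v : AbsoluteValue K ℝ), IsNonarchimedean v → ∀ {M : ℝ}, (∀ i, v (x i) ≤ M) →
      ∀ i, v (R i) ≤ M ^ (n + 1))
    (hw : cr z R ≠ 0) :
    mulHeight x ^ (n + 1) ≤ (2 * 16 ^ (n + 1)) ^ totalWeight K * mulHeight z := by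
  have hy : (x ^ (2 * (n + 1))) 2 = 1 := by
    rw [Pi.pow_apply, hx2, pow_mul]
    simp
  have hcr := cr_eq (y := x ^ (2 * (n + 1))) hy (by simpa [Pi.pow_apply] using hz)
    (by simpa [Pi.pow_apply] using hR)
  have h2 : cr z R 2 ≠ 0 := by
    intro h
    rw [h, zero_smul] at hcr
    exact hw hcr
  have hx : x ≠ 0 := by
    intro h
    rw [h] at hx2
    simp at hx2
  have h1 : mulHeight (cr z R) = mulHeight x ^ (2 * (n + 1)) := by
    rw [hcr, mulHeight_smul_eq_mulHeight _ h2, mulHeight_pow]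
  have hsup : ∀ (v : AbsoluteValue K ℝ) (y : Fin 3 → K) (i : Fin 3), v (y i) ≤ ⨆ j, v (y j) :=
    fun v y i => Finite.le_ciSup_of_le i le_rfl
  have h3 : mulHeight (cr z R) ≤ (2 * 16 ^ (n + 1)) ^ totalWeight K * mulHeight z *
      mulHeight x ^ (n + 1) := by
    refine mulHeight_le_of_local hx hz0 hw (by positivity) (n + 1) ?_ ?_
    · intro v _ j
      have hZ := hsup v z
      have hRR := hRa v (hsup v x)
      set Z := ⨆ j, v (z j)
      set M := ⨆ j, v (x j)
      have hZ0 : 0 ≤ Z := (v.nonneg _).trans (hZ 0)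
      have hM0 : 0 ≤ M := (v.nonneg _).trans (hsup v x 0)
      have key : ∀ a b c d : Fin 3, v (z a * R b - z c * R d) ≤
          2 * 16 ^ (n + 1) * (Z * M ^ (n + 1)) := by
        intro a b c d
        calc v (z a * R b - z c * R d) ≤ v (z a * R b) + v (z c * R d) := by
              rw [sub_eq_add_neg]
              refine (v.add_le _ _).trans ?_
              rw [map_neg_eq_map]
          _ ≤ Z * (16 ^ (n + 1) * M ^ (n + 1)) + Z * (16 ^ (n + 1) * M ^ (n + 1)) := by
              rw [map_mul, map_mul]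
              have := v.nonneg (R b)
              have := v.nonneg (R d)
              gcongr
              · exact hZ a
              · exact hRR b
              · exact hZ c
              · exact hRR d
          _ = _ := by ring
      fin_cases j
      · exact key 1 2 2 1
      · exact key 2 0 0 2
      · exact key 0 1 1 0
    · intro v j
      have hv := AdmissibleAbsValues.isNonarchimedean v.val v.prop
      have hZ := hsup v.val z
      have hRR := hRn v.val hv (hsup v.val x)
      set Z := ⨆ j, v.val (z j)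
      set M := ⨆ j, v.val (x j)
      have hZ0 : 0 ≤ Z := (v.val.nonneg _).trans (hZ 0)
      have hM0 : 0 ≤ M := (v.val.nonneg _).trans (hsup v.val x 0)
      have key : ∀ a b c d : Fin 3, v.val (z a * R b - z c * R d) ≤ Z * M ^ (n + 1) := by
        intro a b c d
        rw [sub_eq_add_neg]
        refine (hv _ _).trans ?_
        rw [map_neg_eq_map, map_mul, map_mul]
        have := v.val.nonneg (R b)
        have := v.val.nonneg (R d)
        refine max_le ?_ ?_
        · gcongr
          · exact hZ a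
          · exact hRR b
        · gcongr
          · exact hZ c
          · exact hRR d
      fin_cases j
      · exact key 1 2 2 1
      · exact key 2 0 0 2
      · exact key 0 1 1 0
  have hpos : 0 < mulHeight x ^ (n + 1) := pow_pos (mulHeight_pos x) _
  rw [h1] at h3
  have h4 : mulHeight x ^ (n + 1) * mulHeight x ^ (n + 1) ≤
      ((2 * 16 ^ (n + 1)) ^ totalWeight K * mulHeight z) * mulHeight x ^ (n + 1) := by
    rw [← pow_add, ← two_mul]
    exact h3
  exact le_of_mul_le_mul_right h4 hpos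

/-- The key inequality. -/
theorem key [CharZero K] (n : ℕ) {t : K} (ht0 : t ≠ 0) (ht1 : t ≠ 1) {z : Fin 3 → K} (hz0 : z ≠ 0)
    (hz : t ^ (2 * (n + 1)) * z 0 + (1 - t) ^ (2 * (n + 1)) * z 1 + z 2 = 0) :
    mulHeight ![t, 1 - t, -1] ^ (n + 1) ≤ (2 * 16 ^ (n + 1)) ^ totalWeight K * mulHeight z := by
  have hsum : (![t, 1 - t, -1] : Fin 3 → K) 0 + (![t, 1 - t, -1] : Fin 3 → K) 1 +
      (![t, 1 - t, -1] : Fin 3 → K) 2 = 0 := by simp
  have h1 : (![t, 1 - t, -1] : Fin 3 → K) 1 ≠ 0 := by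
    simpa using sub_ne_zero.2 (Ne.symm ht1)
  have h2 : (![t, 1 - t, -1] : Fin 3 → K) 2 ≠ 0 := by simp
  have hP := P_orth_field n ![t, 1 - t, -1] hsum (by simpa using ht0) h1 h2
  have hQ := Q_orth_field n ![t, 1 - t, -1] hsum (by simpa using ht0) h1 h2
  have hz' : (![t, 1 - t, -1] : Fin 3 → K) 0 ^ (2 * (n + 1)) * z 0 +
      (![t, 1 - t, -1] : Fin 3 → K) 1 ^ (2 * (n + 1)) * z 1 +
      (![t, 1 - t, -1] : Fin 3 → K) 2 ^ (2 * (n + 1)) * z 2 = 0 := by
    simp only [Matrix.cons_val_zero, Matrix.cons_val_one, Matrix.cons_val]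
    rw [pow_mul (-1 : K)]
    simpa using hz
  by_cases hp : cr z (P n ![t, 1 - t, -1]) = 0
  · by_cases hq : cr z (Q n ![t, 1 - t, -1]) = 0
    · exfalso
      apply minor_ne n t
      set p := P n ![t, 1 - t, -1]
      set q := Q n ![t, 1 - t, -1]
      have p0 := congrFun hp 0
      have p1 := congrFun hp 1
      have p2 := congrFun hp 2
      have q0 := congrFun hq 0
      have q1 := congrFun hq 1
      have q2 := congrFun hq 2
      simp only [cr, Matrix.cons_val_zero, Matrix.cons_val_one, Matrix.cons_val, Pi.zero_apply]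
        at p0 p1 p2 q0 q1 q2
      have e0 : z 0 * (p 0 * q 1 - p 1 * q 0) = 0 := by
        linear_combination p 0 * q2 - q 0 * p2
      have e1 : z 1 * (p 0 * q 1 - p 1 * q 0) = 0 := by
        linear_combination p 1 * q2 - q 1 * p2
      by_contra hne
      have z0 : z 0 = 0 := (mul_eq_zero.1 e0).resolve_right hne
      have z1 : z 1 = 0 := (mul_eq_zero.1 e1).resolve_right hne
      have e2 : z 2 * (p 0 * q 1 - p 1 * q 0) = 0 := by
        linear_combination q 1 * p1 + q 0 * p0 + p 2 * q 1 * z0 - p 2 * q 0 * z1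
      apply hz0
      ext i
      fin_cases i
      · exact z0
      · exact z1
      · exact (mul_eq_zero.1 e2).resolve_right hne
    · exact key_step n (by simp) hz0 hz' hQ (fun v M h => abv_Q_le v n h)
        (fun v hv M h => nonarch_Q_le hv n h) hq
  · exact key_step n (by simp) hz0 hz' hP (fun v M h => abv_P_le v n h)
      (fun v hv M h => nonarch_P_le hv n h) hp

end Pool.Agent.Helper19.UE
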