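import Pool.Agent.Helper19.UE.Forms

/-!
Local bounds for the Pade triples and the global height inequality.
-/

open Finset.HasAntidiagonal (antidiagonal)

namespace Pool.Agent.Helper19.UE

variable {K : Type*} [Field K]

lemma abv_S_le (v : AbsoluteValue K ℝ) (n q r : ℕ) {u w : K} {M : ℝ} (hu : v u ≤ M)
    (hw : v w ≤ M) : v (S n q r u w) ≤ 2 ^ (q + r + 2 * n) * M ^ n := by
  have hM : 0 ≤ M := (v.nonneg u).trans hu
  unfold S
  calc v (∑ ij ∈ antidiagonal n, ((Nat.choose (q + ij.1) q : K) * (Nat.choose (r + ij.2) r : K)) *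
        (u ^ ij.2 * w ^ ij.1))
      ≤ ∑ ij ∈ antidiagonal n, v (((Nat.choose (q + ij.1) q : K) * (Nat.choose (r + ij.2) r : K)) *
        (u ^ ij.2 * w ^ ij.1)) := v.sum_le _ _
    _ ≤ ∑ ij ∈ antidiagonal n, 2 ^ (q + r + n) * M ^ n := by
        refine Finset.sum_le_sum fun ij hij => ?_
        rw [Finset.HasAntidiagonal.mem_antidiagonal] at hij
        rw [map_mul, map_mul, map_mul, map_pow, map_pow]
        have h1 : v ((Nat.choose (q + ij.1) q : ℕ) : K) ≤ 2 ^ (q + ij.1) :=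
          (v.apply_nat_le_self _).trans (by exact_mod_cast Nat.choose_le_two_pow _ _)
        have h2 : v ((Nat.choose (r + ij.2) r : ℕ) : K) ≤ 2 ^ (r + ij.2) :=
          (v.apply_nat_le_self _).trans (by exact_mod_cast Nat.choose_le_two_pow _ _)
        calc v ((Nat.choose (q + ij.1) q : ℕ) : K) * v ((Nat.choose (r + ij.2) r : ℕ) : K) *
              (v u ^ ij.2 * v w ^ ij.1)
            ≤ (2 ^ (q + ij.1) * 2 ^ (r + ij.2)) * (M ^ ij.2 * M ^ ij.1) := by
              gcongr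
          _ = 2 ^ (q + r + n) * M ^ n := by
              rw [← pow_add, ← pow_add, ← hij]
              congr 2 <;> ring
    _ = (n + 1) * (2 ^ (q + r + n) * M ^ n) := by
        rw [Finset.sum_const, Finset.Nat.card_antidiagonal, nsmul_eq_mul]
        push_cast
        ring
    _ ≤ 2 ^ n * (2 ^ (q + r + n) * M ^ n) := by
        gcongr
        exact_mod_cast Nat.lt_two_pow_self
    _ = 2 ^ (q + r + 2 * n) * M ^ n := by ring

lemma nonarch_S_le {v : AbsoluteValue K ℝ} (hv : IsNonarchimedean v) (n q r : ℕ) {u w : K} {M : ℝ}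
    (hu : v u ≤ M) (hw : v w ≤ M) : v (S n q r u w) ≤ M ^ n := by
  have hM : 0 ≤ M := (v.nonneg u).trans hu
  unfold S
  obtain ⟨ij, hij, h⟩ := hv.finset_image_add_of_nonempty
    (fun ij : ℕ × ℕ => ((Nat.choose (q + ij.1) q : K) * (Nat.choose (r + ij.2) r : K)) *
        (u ^ ij.2 * w ^ ij.1)) (t := antidiagonal n) ⟨(0, n), by simp⟩
  refine h.trans ?_
  rw [Finset.HasAntidiagonal.mem_antidiagonal] at hij
  rw [map_mul, map_mul, map_mul, map_pow, map_pow]
  have h1 : v ((Nat.choose (q + ij.1) q : ℕ) : K) ≤ 1 := hv.apply_natCast_le_one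
  have h2 : v ((Nat.choose (r + ij.2) r : ℕ) : K) ≤ 1 := hv.apply_natCast_le_one
  calc v ((Nat.choose (q + ij.1) q : ℕ) : K) * v ((Nat.choose (r + ij.2) r : ℕ) : K) *
        (v u ^ ij.2 * v w ^ ij.1)
      ≤ (1 * 1) * (M ^ ij.2 * M ^ ij.1) := by gcongr
    _ = M ^ n := by
        rw [← pow_add, ← hij, add_comm ij.2]
        ring

lemma abv_sign (v : AbsoluteValue K ℝ) (m : ℕ) (f : K) : v ((-1) ^ m * f) = v f := by
  rcases neg_one_pow_eq_or K m with h | h <;> simp [h]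

lemma abv_P_le (v : AbsoluteValue K ℝ) (n : ℕ) {x : Fin 3 → K} {M : ℝ} (hx : ∀ i, v (x i) ≤ M)
    (i : Fin 3) : v (P n x i) ≤ 16 ^ (n + 1) * M ^ (n + 1) := by
  have hM : 0 ≤ M := (v.nonneg _).trans (hx 0)
  have hx' : ∀ i, v (- x i) ≤ M := fun i => by rw [map_neg_eq_map]; exact hx i
  have e : ((16 : ℝ)) ^ (n + 1) = 2 ^ (4 * (n + 1)) := by rw [pow_mul]; norm_num
  fin_cases i
  · simp only [P, Fin.zero_eta, Matrix.cons_val_zero]
    rw [abv_sign]
    refine (abv_S_le v _ _ _ (hx _) (hx' _)).trans ?_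
    rw [e]
    gcongr
    · norm_num
    · omega
  · simp only [P, Fin.mk_one, Matrix.cons_val_one, Matrix.cons_val_zero]
    rw [abv_sign, map_mul]
    calc v (x 1) * v (S n (n + 1) (n + 1) (-x 2) (x 0))
        ≤ M * (2 ^ (n + 1 + (n + 1) + 2 * n) * M ^ n) := by
          gcongr
          · exact hx 1
          · exact abv_S_le v _ _ _ (hx' _) (hx _)
      _ = 2 ^ (n + 1 + (n + 1) + 2 * n) * M ^ (n + 1) := by ring
      _ ≤ 16 ^ (n + 1) * M ^ (n + 1) := by
          rw [e]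
          gcongr
          · norm_num
          · omega
  · simp only [P, Fin.reduceFinMk, Matrix.cons_val]
    rw [abv_sign]
    refine (abv_S_le v _ _ _ (hx _) (hx' _)).trans ?_
    rw [e]
    gcongr
    · norm_num
    · omega

lemma abv_Q_le (v : AbsoluteValue K ℝ) (n : ℕ) {x : Fin 3 → K} {M : ℝ} (hx : ∀ i, v (x i) ≤ M)
    (i : Fin 3) : v (Q n x i) ≤ 16 ^ (n + 1) * M ^ (n + 1) := by
  have hM : 0 ≤ M := (v.nonneg _).trans (hx 0)
  have hx' : ∀ i, v (- x i) ≤ M := fun i => by rw [map_neg_eq_map]; exact hx i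
  have e : ((16 : ℝ)) ^ (n + 1) = 2 ^ (4 * (n + 1)) := by rw [pow_mul]; norm_num
  fin_cases i
  · simp only [Q, Fin.zero_eta, Matrix.cons_val_zero]
    rw [abv_sign, map_mul]
    calc v (x 0) * v (S n (n + 1) (n + 1) (x 2) (-x 1))
        ≤ M * (2 ^ (n + 1 + (n + 1) + 2 * n) * M ^ n) := by
          gcongr
          · exact hx 0
          · exact abv_S_le v _ _ _ (hx _) (hx' _)
      _ = 2 ^ (n + 1 + (n + 1) + 2 * n) * M ^ (n + 1) := by ring
      _ ≤ 16 ^ (n + 1) * M ^ (n + 1) := by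
          rw [e]
          gcongr
          · norm_num
          · omega
  · simp only [Q, Fin.mk_one, Matrix.cons_val_one, Matrix.cons_val_zero]
    rw [abv_sign]
    refine (abv_S_le v _ _ _ (hx' _) (hx _)).trans ?_
    rw [e]
    gcongr
    · norm_num
    · omega
  · simp only [Q, Fin.reduceFinMk, Matrix.cons_val]
    rw [abv_sign]
    refine (abv_S_le v _ _ _ (hx _) (hx' _)).trans ?_
    rw [e]
    gcongr
    · norm_num
    · omega

lemma nonarch_P_le {v : AbsoluteValue K ℝ} (hv : IsNonarchimedean v) (n : ℕ) {x : Fin 3 → K} {M : ℝ}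
    (hx : ∀ i, v (x i) ≤ M) (i : Fin 3) : v (P n x i) ≤ M ^ (n + 1) := by
  have hM : 0 ≤ M := (v.nonneg _).trans (hx 0)
  have hx' : ∀ i, v (- x i) ≤ M := fun i => by rw [map_neg_eq_map]; exact hx i
  fin_cases i
  · simp only [P, Fin.zero_eta, Matrix.cons_val_zero]
    rw [abv_sign]
    exact nonarch_S_le hv _ _ _ (hx _) (hx' _)
  · simp only [P, Fin.mk_one, Matrix.cons_val_one, Matrix.cons_val_zero]
    rw [abv_sign, map_mul, pow_succ']
    gcongr
    · exact hx 1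
    · exact nonarch_S_le hv _ _ _ (hx' _) (hx _)
  · simp only [P, Fin.reduceFinMk, Matrix.cons_val]
    rw [abv_sign]
    exact nonarch_S_le hv _ _ _ (hx _) (hx' _)

lemma nonarch_Q_le {v : AbsoluteValue K ℝ} (hv : IsNonarchimedean v) (n : ℕ) {x : Fin 3 → K} {M : ℝ}
    (hx : ∀ i, v (x i) ≤ M) (i : Fin 3) : v (Q n x i) ≤ M ^ (n + 1) := by
  have hM : 0 ≤ M := (v.nonneg _).trans (hx 0)
  have hx' : ∀ i, v (- x i) ≤ M := fun i => by rw [map_neg_eq_map]; exact hx i
  fin_cases i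
  · simp only [Q, Fin.zero_eta, Matrix.cons_val_zero]
    rw [abv_sign, map_mul, pow_succ']
    gcongr
    · exact hx 0
    · exact nonarch_S_le hv _ _ _ (hx _) (hx' _)
  · simp only [Q, Fin.mk_one, Matrix.cons_val_one, Matrix.cons_val_zero]
    rw [abv_sign]
    exact nonarch_S_le hv _ _ _ (hx' _) (hx _)
  · simp only [Q, Fin.reduceFinMk, Matrix.cons_val]
    rw [abv_sign]
    exact nonarch_S_le hv _ _ _ (hx _) (hx' _)

open Height AdmissibleAbsValues Multiset Function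

/-- Copy of a private lemma of Mathlib. -/
lemma finSupp_iSup [AdmissibleAbsValues K] {ι : Type*} [Finite ι] {x : ι → K} (hx : x ≠ 0) :
    (fun v : nonarchAbsVal (K := K) ↦ ⨆ i, v.val (x i)).HasFiniteMulSupport := by
  have : Nonempty {j // x j ≠ 0} := nonempty_subtype.mpr <| ne_iff.mp hx
  suffices (fun v : nonarchAbsVal (K := K) ↦ ⨆ i : {j // x j ≠ 0}, v.val (x i)).HasFiniteMulSupport by
    convert! this with v
    obtain ⟨i, hi⟩ : ∃ j, x j ≠ 0 := Function.ne_iff.mp hx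
    have : Nonempty ι := .intro i
    refine le_antisymm (ciSup_le fun j ↦ ?_) (ciSup_le fun ⟨j, hj⟩ ↦ Finite.le_ciSup_of_le j le_rfl)
    rcases eq_or_ne (x j) 0 with h | h
    · rw [h, v.val.map_zero]
      exact Real.iSup_nonneg' ⟨⟨i, hi⟩, v.val.nonneg ..⟩
    · exact Finite.le_ciSup_of_le ⟨j, h⟩ le_rfl
  fun_prop (disch := grind)

/-- From local bounds to a height bound. -/
lemma mulHeight_le_of_local [AdmissibleAbsValues K] {ι ι' κ : Type*} [Finite ι] [Finite ι']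
    [Nonempty ι'] [Finite κ] {x : ι → K} {z : κ → K} {w : ι' → K} (hx : x ≠ 0) (hz : z ≠ 0)
    (hw : w ≠ 0) {C : ℝ} (hC : 0 ≤ C) (N : ℕ)
    (harch : ∀ v ∈ archAbsVal (K := K), ∀ j, v (w j) ≤ C * ((⨆ k, v (z k)) * (⨆ i, v (x i)) ^ N))
    (hna : ∀ v : nonarchAbsVal (K := K), ∀ j,
      v.val (w j) ≤ (⨆ k, v.val (z k)) * (⨆ i, v.val (x i)) ^ N) :
    mulHeight w ≤ C ^ totalWeight K * mulHeight z * mulHeight x ^ N := by
  simp only [mulHeight_eq hx, mulHeight_eq hz, mulHeight_eq hw]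
  have HH₁ (v : AbsoluteValue K ℝ) : 0 ≤ (⨆ i, v (x i)) ^ N :=
    pow_nonneg (Real.iSup_nonneg_of_nonnegHomClass v _) N
  have HH₂ (v : AbsoluteValue K ℝ) : 0 ≤ (⨆ i, v (z i)) := Real.iSup_nonneg_of_nonnegHomClass v _
  have h1 : (archAbsVal.map (fun v : AbsoluteValue K ℝ ↦ ⨆ i, v (w i))).prod ≤
      C ^ totalWeight K * (archAbsVal.map (fun v : AbsoluteValue K ℝ ↦ ⨆ i, v (z i))).prod *
        (archAbsVal.map (fun v : AbsoluteValue K ℝ ↦ ⨆ i, v (x i))).prod ^ N := by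
    have e : C ^ totalWeight K = (archAbsVal.map (fun _ : AbsoluteValue K ℝ ↦ C)).prod := by
      rw [Multiset.map_const', Multiset.prod_replicate, totalWeight]
    rw [e, ← prod_map_pow, ← prod_map_mul, ← prod_map_mul]
    refine prod_map_le_prod_map₀ _ _ (fun _ _ ↦ Real.iSup_nonneg_of_nonnegHomClass ..)
      fun v hv ↦ ciSup_le fun j ↦ ?_
    rw [mul_assoc]
    exact harch v hv j
  have h2 : ∏ᶠ v : nonarchAbsVal (K := K), ⨆ i, v.val (w i) ≤
      (∏ᶠ v : nonarchAbsVal (K := K), ⨆ i, v.val (z i)) *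
        (∏ᶠ v : nonarchAbsVal (K := K), ⨆ i, v.val (x i)) ^ N := by
    have F := finSupp_iSup hx
    have F' := finSupp_iSup hz
    have F'' := finSupp_iSup hw
    rw [finprod_pow F, ← finprod_mul_distrib (by fun_prop) (by fun_prop)]
    exact finprod_le_finprod (by fun_prop)
      (fun _ ↦ Real.iSup_nonneg_of_nonnegHomClass ..) (by fun_prop) fun v ↦ ciSup_le (hna v)
  have H₂ : 0 ≤ (archAbsVal.map (fun v : AbsoluteValue K ℝ ↦ ⨆ i, v (x i))).prod :=
    prod_map_nonneg fun _ _ ↦ Real.iSup_nonneg_of_nonnegHomClass ..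
  have H₂' : 0 ≤ (archAbsVal.map (fun v : AbsoluteValue K ℝ ↦ ⨆ i, v (z i))).prod :=
    prod_map_nonneg fun _ _ ↦ Real.iSup_nonneg_of_nonnegHomClass ..
  have H₃ : 0 ≤ ∏ᶠ v : nonarchAbsVal (K := K), ⨆ i, v.val (w i) :=
    finprod_nonneg fun _ ↦ Real.iSup_nonneg_of_nonnegHomClass ..
  calc _ ≤ (C ^ totalWeight K * (archAbsVal.map (fun v : AbsoluteValue K ℝ ↦ ⨆ i, v (z i))).prod *
        (archAbsVal.map (fun v : AbsoluteValue K ℝ ↦ ⨆ i, v (x i))).prod ^ N) *
        ((∏ᶠ v : nonarchAbsVal (K := K), ⨆ i, v.val (z i)) *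
        (∏ᶠ v : nonarchAbsVal (K := K), ⨆ i, v.val (x i)) ^ N) := by
        gcongr
    _ = _ := by ring

end Pool.Agent.Helper19.UE
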