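import Pool.Agent.Helper19.UE.Final

/-!
The unit equation `u + v = 1` has finitely many solutions in `S`-units.
-/

namespace Pool.Agent.Helper19.UE

open Height AdmissibleAbsValues

variable {K : Type*} [Field K] [AdmissibleAbsValues K]

/-- The point `(u, 1 - u, -1)`. -/
def tri (u : K) : Fin 3 → K := ![u, 1 - u, -1]

lemma tri_two (u : K) : tri u 2 = -1 := by simp [tri]

lemma tri_ne {u : K} (h0 : u ≠ 0) (h1 : u ≠ 1) (i : Fin 3) : tri u i ≠ 0 := by
  fin_cases i
  · simpa [tri] using h0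
  · simpa [tri] using sub_ne_zero.2 (Ne.symm h1)
  · simp [tri]

/-- The height of `(u, 1 - u, -1)`. -/
noncomputable def ht (u : K) : ℝ := Real.log (mulHeight (tri u))

lemma exp_ht (u : K) : Real.exp (ht u) = mulHeight (tri u) := Real.exp_log (mulHeight_pos _)

lemma ht_nonneg (u : K) : 0 ≤ ht u := Real.log_nonneg (one_le_mulHeight _)

/-- A place at which we look: archimedean, or nonarchimedean in `S`. -/
def Look (v : AbsoluteValue K ℝ) : Prop :=
  v ∈ archAbsVal (K := K) ∨ v ∈ nonarchAbsVal (K := K)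

lemma Look.le {v : AbsoluteValue K ℝ} (hv : Look v) (x : K) : v x ≤ mulHeight₁ x := by
  rcases hv with hv | hv
  · exact le_h1_arch hv x
  · exact le_h1_nonarch ⟨v, hv⟩ x

lemma abs_log_le {v : AbsoluteValue K ℝ} (hv : Look v) {u : K} (h0 : u ≠ 0) (h1 : u ≠ 1)
    (i : Fin 3) : |Real.log (v (tri u i))| ≤ ht u := by
  have hne := tri_ne h0 h1 i
  have hpos : 0 < v (tri u i) := v.pos hne
  have hb := h1_le (tri u) (tri_two u) i
  rw [abs_le]
  constructor
  · have h := (hv.le (tri u i)⁻¹).trans_eq (mulHeight₁_inv _)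
    rw [map_inv₀] at h
    have := Real.log_le_log (inv_pos.2 hpos) (h.trans hb)
    rw [Real.log_inv] at this
    have : -Real.log (v (tri u i)) ≤ ht u := this
    linarith
  · exact Real.log_le_log hpos ((hv.le _).trans hb)

/-- The direction of the log vector. -/
noncomputable def dir (u : K) (v : AbsoluteValue K ℝ) (i : Fin 3) : ℝ :=
  Real.log (v (tri u i)) / ht u

lemma abs_dir_le {v : AbsoluteValue K ℝ} (hv : Look v) {u : K} (h0 : u ≠ 0) (h1 : u ≠ 1)
    (i : Fin 3) : |dir u v i| ≤ 1 := by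
  unfold dir
  rw [abs_div, abs_of_nonneg (ht_nonneg u)]
  exact div_le_one_of_le₀ (abs_log_le hv h0 h1 i) (ht_nonneg u)

lemma log_eq {u : K} (h : 0 < ht u) (v : AbsoluteValue K ℝ) (i : Fin 3) :
    Real.log (v (tri u i)) = ht u * dir u v i := by
  unfold dir
  field_simp

/-- The main estimate. -/
lemma main_step [CharZero K] (S : Finset (nonarchAbsVal (K := K))) {x y : K}
    (hx0 : x ≠ 0) (hx1 : x ≠ 1) (hy0 : y ≠ 0) (hy1 : y ≠ 1)
    (hxS : ∀ v : nonarchAbsVal (K := K), v ∉ S → v.val x = 1 ∧ v.val (1 - x) = 1)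
    (hyS : ∀ v : nonarchAbsVal (K := K), v ∉ S → v.val y = 1 ∧ v.val (1 - y) = 1)
    {ε : ℝ} (hε : 0 ≤ ε)
    (hdir : ∀ v : AbsoluteValue K ℝ, (v ∈ archAbsVal (K := K) ∨ ∃ w ∈ S, w.val = v) → ∀ i,
      |dir y v i - dir x v i| ≤ ε)
    (hxp : 0 < ht x) (n : ℕ) (hle : 2 * (n + 1) * ht x ≤ ht y)
    (hlt : ht y ≤ 2 * (n + 1) * ht x + 2 * ht x) :
    (n + 1) * ht x ≤ 4 * (n + 1) * (totalWeight K + S.card : ℕ) +
      (totalWeight K + S.card : ℕ) * (ht x * (2 + 2 * (n + 1) * ε)) := by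
  set w := totalWeight K + S.card with hw
  set B := ht x * (2 + 2 * (n + 1) * ε) with hB
  have hyp : 0 < ht y := lt_of_lt_of_le (by positivity) hle
  set z : Fin 3 → K := fun i => tri y i / tri x i ^ (2 * (n + 1)) with hz
  have hxn := tri_ne hx0 hx1
  have hyn := tri_ne hy0 hy1
  have hz0 : z ≠ 0 := by
    intro h
    have := congrFun h 0
    simp only [hz, Pi.zero_apply, div_eq_zero_iff] at this
    rcases this with h' | h'
    · exact hyn 0 h'
    · exact pow_ne_zero _ (hxn 0) h'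
  have hlook : ∀ v : AbsoluteValue K ℝ, (v ∈ archAbsVal (K := K) ∨ ∃ w ∈ S, w.val = v) → Look v := by
    rintro v (h | ⟨w, _, rfl⟩)
    · exact Or.inl h
    · exact Or.inr w.prop
  have hloc : ∀ v : AbsoluteValue K ℝ, (v ∈ archAbsVal (K := K) ∨ ∃ w ∈ S, w.val = v) → ∀ i,
      v (z i) ≤ Real.exp B := by
    intro v hv i
    have hvz : 0 < v (z i) := v.pos (div_ne_zero (hyn i) (pow_ne_zero _ (hxn i)))
    rw [← Real.log_le_iff_le_exp hvz]
    have e : Real.log (v (z i)) = Real.log (v (tri y i)) - 2 * (n + 1) * Real.log (v (tri x i)) := by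
      simp only [hz]
      rw [map_div₀, map_pow, Real.log_div (v.pos (hyn i)).ne' (pow_pos (v.pos (hxn i)) _).ne',
        Real.log_pow]
      push_cast
      ring
    rw [e, log_eq hyp, log_eq hxp]
    have h1 := abs_dir_le (hlook v hv) hy0 hy1 i
    have h2 := hdir v hv i
    have h3 : (ht y - 2 * (n + 1) * ht x) * dir y v i ≤ 2 * ht x := by
      calc (ht y - 2 * (n + 1) * ht x) * dir y v i
          ≤ (ht y - 2 * (n + 1) * ht x) * 1 := by
            apply mul_le_mul_of_nonneg_left ((le_abs_self _).trans h1)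
            linarith
        _ ≤ 2 * ht x := by linarith
    have h4 : 2 * (n + 1) * ht x * (dir y v i - dir x v i) ≤ 2 * (n + 1) * ht x * ε := by
      apply mul_le_mul_of_nonneg_left ((le_abs_self _).trans h2)
      positivity
    calc ht y * dir y v i - 2 * (n + 1) * (ht x * dir x v i)
        = (ht y - 2 * (n + 1) * ht x) * dir y v i +
            2 * (n + 1) * ht x * (dir y v i - dir x v i) := by ring
      _ ≤ 2 * ht x + 2 * (n + 1) * ht x * ε := add_le_add h3 h4
      _ = B := by rw [hB]; ring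
  have hmz : mulHeight z ≤ Real.exp B ^ w := by
    refine mulHeight_le_pow hz0 S (Real.exp_pos B) (fun v hv i => hloc v (Or.inl hv) i)
      (fun v hv i => hloc v.val (Or.inr ⟨v, hv, rfl⟩) i) ?_
    intro v hv i
    have hX := hxS v hv
    have hY := hyS v hv
    have e : ∀ (u : K) (hu : v.val u = 1 ∧ v.val (1 - u) = 1), v.val (tri u i) = 1 := by
      intro u hu
      fin_cases i
      · simpa [tri] using hu.1
      · simpa [tri] using hu.2
      · simp [tri]
    simp only [hz]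
    rw [map_div₀, map_pow, e y hY, e x hX]
    simp
  have horth : x ^ (2 * (n + 1)) * z 0 + (1 - x) ^ (2 * (n + 1)) * z 1 + z 2 = 0 := by
    have p0 := pow_ne_zero (2 * (n + 1)) (hxn 0)
    have p1 := pow_ne_zero (2 * (n + 1)) (hxn 1)
    have e0 : x ^ (2 * (n + 1)) * z 0 = y := by
      simp only [hz]
      have : tri x 0 = x := rfl
      rw [this] at p0 ⊢
      have : tri y 0 = y := rfl
      rw [this]
      field_simp
    have e1 : (1 - x) ^ (2 * (n + 1)) * z 1 = 1 - y := by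
      simp only [hz]
      have : tri x 1 = 1 - x := rfl
      rw [this] at p1 ⊢
      have : tri y 1 = 1 - y := rfl
      rw [this]
      field_simp
    have e2 : z 2 = -1 := by
      simp only [hz, tri_two]
      rw [pow_mul]
      simp
    rw [e0, e1, e2]
    ring
  have hkey := key n hx0 hx1 hz0 horth
  have hkey' : Real.exp (ht x) ^ (n + 1) ≤ (2 * 16 ^ (n + 1)) ^ totalWeight K * Real.exp B ^ w := by
    rw [exp_ht]
    calc mulHeight (tri x) ^ (n + 1) ≤ (2 * 16 ^ (n + 1)) ^ totalWeight K * mulHeight z := hkey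
      _ ≤ _ := by gcongr
  have hlog := Real.log_le_log (by positivity) hkey'
  rw [Real.log_pow, Real.log_exp, Real.log_mul (by positivity) (by positivity), Real.log_pow,
    Real.log_pow, Real.log_exp, Real.log_mul (by norm_num) (by positivity), Real.log_pow] at hlog
  have hl2 : Real.log 2 ≤ 0.7 := by
    have := Real.log_two_lt_d9
    linarith
  have hl16 : Real.log 16 = 4 * Real.log 2 := by
    rw [show (16 : ℝ) = 2 ^ 4 by norm_num, Real.log_pow]
    norm_num
  have hl0 : 0 ≤ Real.log 2 := Real.log_nonneg (by norm_num)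
  have hb : Real.log 2 + ((n + 1 : ℕ) : ℝ) * Real.log 16 ≤ 4 * (n + 1) := by
    rw [hl16]
    push_cast
    have hn : (0 : ℝ) ≤ n := Nat.cast_nonneg n
    nlinarith
  have htw : ((totalWeight K : ℕ) : ℝ) ≤ (w : ℕ) := by
    rw [hw]
    exact_mod_cast Nat.le_add_right _ _
  have htw0 : (0 : ℝ) ≤ (totalWeight K : ℕ) := Nat.cast_nonneg _
  have hn0 : (0 : ℝ) ≤ 4 * (n + 1) := by positivity
  have h1 : ((totalWeight K : ℕ) : ℝ) * (Real.log 2 + ((n + 1 : ℕ) : ℝ) * Real.log 16) ≤
      (w : ℕ) * (4 * (n + 1)) := by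
    calc _ ≤ ((totalWeight K : ℕ) : ℝ) * (4 * (n + 1)) := mul_le_mul_of_nonneg_left hb htw0
      _ ≤ _ := mul_le_mul_of_nonneg_right htw hn0
  push_cast at hlog h1 ⊢
  linarith

/-- Finiteness for the unit equation. -/
theorem unit_finite [CharZero K] [Northcott (mulHeight₁ (K := K))]
    (S : Finset (nonarchAbsVal (K := K))) :
    {u : K | u ≠ 0 ∧ u ≠ 1 ∧ ∀ v : nonarchAbsVal (K := K), v ∉ S →
      v.val u = 1 ∧ v.val (1 - u) = 1}.Finite := by
  classical
  set Sg := {u : K | u ≠ 0 ∧ u ≠ 1 ∧ ∀ v : nonarchAbsVal (K := K), v ∉ S →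
      v.val u = 1 ∧ v.val (1 - u) = 1} with hSg
  by_contra hinf
  set w := totalWeight K + S.card with hw
  set ε : ℝ := 1 / (8 * (w + 1)) with hε
  have hεp : 0 < ε := by positivity
  let W : Finset (AbsoluteValue K ℝ) := (archAbsVal (K := K)).toFinset ∪ S.image Subtype.val
  have hWlook : ∀ v ∈ W, Look v := by
    intro v hv
    rcases Finset.mem_union.1 hv with h | h
    · exact Or.inl (Multiset.mem_toFinset.1 h)
    · obtain ⟨a, _, rfl⟩ := Finset.mem_image.1 h
      exact Or.inr a.prop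
  let f : K → (W × Fin 3 → ℤ) := fun u p => ⌊dir u p.1.val p.2 / ε⌋
  have himg : (f '' Sg).Finite := by
    refine (Set.finite_Icc (fun _ : W × Fin 3 => ⌊-1 / ε⌋) (fun _ => ⌊1 / ε⌋)).subset ?_
    rintro _ ⟨u, hu, rfl⟩
    constructor <;>
    · intro p
      have := abs_le.1 (abs_dir_le (hWlook p.1.val p.1.prop) hu.1 hu.2.1 p.2)
      apply Int.floor_le_floor
      apply div_le_div_of_nonneg_right _ hεp.le
      first | exact this.1 | exact this.2
  obtain ⟨c, hc⟩ : ∃ c, ¬ (Sg ∩ f ⁻¹' {c}).Finite := by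
    by_contra h
    push Not at h
    exact hinf (Set.Finite.of_finite_fibers f himg fun c _ => h c)
  have hunb : ∀ B : ℝ, ∃ u ∈ Sg ∩ f ⁻¹' {c}, B < ht u := by
    intro B
    by_contra h
    push Not at h
    apply hc
    refine (Northcott.finite_le (h := mulHeight₁ (K := K)) (Real.exp B)).subset fun u hu => ?_
    have h1 := h u hu
    have h2 := h1_le (tri u) (tri_two u) 0
    calc mulHeight₁ u ≤ mulHeight (tri u) := h2
      _ = Real.exp (ht u) := (exp_ht u).symm
      _ ≤ Real.exp B := Real.exp_le_exp.2 h1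
  obtain ⟨x, ⟨hxS, hxc⟩, hxB⟩ := hunb (16 * (w + 1))
  have hxp : 0 < ht x := lt_trans (by positivity) hxB
  obtain ⟨y, ⟨hyS, hyc⟩, hyB⟩ := hunb ((8 * w + 4) * ht x)
  have hdir : ∀ v : AbsoluteValue K ℝ, (v ∈ archAbsVal (K := K) ∨ ∃ w ∈ S, w.val = v) → ∀ i,
      |dir y v i - dir x v i| ≤ ε := by
    intro v hv i
    have hvW : v ∈ W := by
      rcases hv with h | ⟨a, ha, rfl⟩
      · exact Finset.mem_union_left _ (Multiset.mem_toFinset.2 h)
      · exact Finset.mem_union_right _ (Finset.mem_image_of_mem _ ha)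
    have e : f y = f x := by
      rw [Set.mem_preimage, Set.mem_singleton_iff] at hxc hyc
      rw [hxc, hyc]
    have e' := congrFun e (⟨v, hvW⟩, i)
    simp only [f] at e'
    have := Int.abs_sub_lt_one_of_floor_eq_floor e'
    rw [← sub_div, abs_div, abs_of_pos hεp, div_lt_one hεp] at this
    exact this.le
  set N := ⌊ht y / (2 * ht x)⌋₊ with hN
  have h2x : 0 < 2 * ht x := by positivity
  have hNle : (N : ℝ) ≤ ht y / (2 * ht x) := Nat.floor_le (by have := ht_nonneg y; positivity)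
  have hNlt : ht y / (2 * ht x) < N + 1 := Nat.lt_floor_add_one _
  have hNbig : 4 * w + 1 ≤ N := by
    apply Nat.le_floor
    rw [le_div_iff₀ h2x]
    push_cast
    nlinarith
  obtain ⟨n, hn⟩ : ∃ n, N = n + 1 := ⟨N - 1, by omega⟩
  rw [hn] at hNle hNlt hNbig
  push_cast at hNle hNlt
  rw [le_div_iff₀ h2x] at hNle
  rw [div_lt_iff₀ h2x] at hNlt
  have hfin := main_step S hxS.1 hxS.2.1 hyS.1 hyS.2.1 hxS.2.2 hyS.2.2 hεp.le hdir hxp n
    (by linarith) (by linarith)
  rw [← hw] at hfin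
  have hbig : (4 * w + 1 : ℝ) ≤ n + 1 := by exact_mod_cast hNbig
  have hw0 : (0 : ℝ) ≤ w := Nat.cast_nonneg _
  have hwe : (w : ℝ) * (2 * (n + 1) * ε) ≤ (n + 1) / 4 := by
    rw [hε]
    rw [mul_one_div, mul_div_assoc', div_le_div_iff₀ (by positivity) (by norm_num)]
    have : (0 : ℝ) ≤ n := Nat.cast_nonneg n
    nlinarith
  have h5 : (w : ℝ) * (ht x * (2 + 2 * (n + 1) * ε)) ≤ 2 * w * ht x + ht x * ((n + 1) / 4) := by
    have := mul_le_mul_of_nonneg_left hwe hxp.le
    linarith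
  have h6 : 4 * ((n : ℝ) + 1) * w ≤ (n + 1) * (ht x / 4) := by
    have : (4 : ℝ) * w ≤ ht x / 4 := by linarith
    have hn1 : (0 : ℝ) ≤ (n : ℝ) + 1 := by positivity
    nlinarith
  nlinarith

end Pool.Agent.Helper19.UE
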