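import Pool.Agent.Helper19.UE.Main

/-!
The S-unit equation over a number field.
-/

namespace Pool.Agent.Helper19.UE

open Height AdmissibleAbsValues Polynomial

lemma abv_integral_le {K : Type*} [Field K] {v : AbsoluteValue K ℝ} (hv : IsNonarchimedean v)
    {x : K} (hx : IsIntegral ℤ x) : v x ≤ 1 := by
  obtain ⟨p, hp, hpx⟩ := hx
  by_contra hlt
  push Not at hlt
  have hn : p.natDegree ≠ 0 := by
    intro h
    have h1 : p = 1 := hp.natDegree_eq_zero.1 h
    rw [h1] at hpx
    simp at hpx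
  rw [eval₂_eq_sum_range, Finset.sum_range_succ, hp.coeff_natDegree, map_one, one_mul] at hpx
  have e : x ^ p.natDegree = -∑ i ∈ Finset.range p.natDegree, algebraMap ℤ K (p.coeff i) * x ^ i := by
    linear_combination hpx
  obtain ⟨i, hi, h⟩ := hv.finset_image_add_of_nonempty
    (fun i => algebraMap ℤ K (p.coeff i) * x ^ i) (t := Finset.range p.natDegree)
    ⟨0, Finset.mem_range.2 (Nat.pos_of_ne_zero hn)⟩
  have h1 : v x ^ p.natDegree ≤ v x ^ i := by
    calc v x ^ p.natDegree = v (∑ i ∈ Finset.range p.natDegree, algebraMap ℤ K (p.coeff i) * x ^ i) := by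
          rw [← map_pow, e, map_neg_eq_map]
      _ ≤ v (algebraMap ℤ K (p.coeff i) * x ^ i) := h
      _ ≤ 1 * v x ^ i := by
          rw [map_mul, map_pow]
          have := hv.apply_intCast_le_one (n := p.coeff i)
          have h0 : 0 ≤ v x := v.nonneg _
          gcongr
          simpa using this
      _ = v x ^ i := one_mul _
  have h2 : v x ^ i < v x ^ p.natDegree := pow_lt_pow_right₀ hlt (Finset.mem_range.1 hi)
  exact absurd h1 (not_le.2 h2)

/-- The S-unit equation `u + v = 1` over a number field has finitely many solutions. -/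
theorem sunit_finite {K : Type*} [Field K] [NumberField K] (M : ℕ) (hM : M ≠ 0) :
    {u : K | u ≠ 0 ∧ 1 - u ≠ 0 ∧ (∃ n : ℕ, IsIntegral ℤ ((M : K) ^ n * u)) ∧
      (∃ n : ℕ, IsIntegral ℤ ((M : K) ^ n * u⁻¹)) ∧
      (∃ n : ℕ, IsIntegral ℤ ((M : K) ^ n * (1 - u))) ∧
      ∃ n : ℕ, IsIntegral ℤ ((M : K) ^ n * (1 - u)⁻¹)}.Finite := by
  have hMK : (M : K) ≠ 0 := Nat.cast_ne_zero.2 hM
  have hfin := AdmissibleAbsValues.hasFiniteMulSupport hMK
  refine (unit_finite (K := K) hfin.toFinset).subset ?_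
  rintro u ⟨h0, h1, h2, h3, h4, h5⟩
  refine ⟨h0, fun h => h1 (by rw [h, sub_self]), fun v hv => ?_⟩
  have hvM : v.val (M : K) = 1 := by
    by_contra h
    exact hv (by simpa using h)
  have key : ∀ z : K, z ≠ 0 → (∃ n : ℕ, IsIntegral ℤ ((M : K) ^ n * z)) →
      (∃ n : ℕ, IsIntegral ℤ ((M : K) ^ n * z⁻¹)) → v.val z = 1 := by
    rintro z hz ⟨n, hn⟩ ⟨m, hm⟩
    have hv' := AdmissibleAbsValues.isNonarchimedean v.val v.prop
    have a := abv_integral_le hv' hn
    have b := abv_integral_le hv' hm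
    rw [map_mul, map_pow, hvM, one_pow, one_mul] at a b
    rw [map_inv₀] at b
    have hp : 0 < v.val z := v.val.pos hz
    exact le_antisymm a ((inv_le_one₀ hp).1 b)
  exact ⟨key u h0 h2 h3, key (1 - u) h1 h4 h5⟩

end Pool.Agent.Helper19.UE
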