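import Pool.Agent.Helper19.UE.Residue

/-!
Pade approximants: forms `P, Q` of degree `n + 1` with positive integer coefficients (up to signs)
and `∑ x_i ^ (2 (n + 1)) P_i (x) = 0` on `x_0 + x_1 + x_2 = 0`, independent at every point.
-/

open PowerSeries
open Finset.HasAntidiagonal (antidiagonal)

namespace Pool.Agent.Helper19.UE

/-- The form `∑_{i + j = n} C(q + i, q) C(r + j, r) u ^ j v ^ i`. -/
def S {R : Type*} [CommRing R] (n q r : ℕ) (u v : R) : R :=
  ∑ ij ∈ antidiagonal n, ((Nat.choose (q + ij.1) q : R) * (Nat.choose (r + ij.2) r : R)) *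
    (u ^ ij.2 * v ^ ij.1)

lemma map_S {R R' : Type*} [CommRing R] [CommRing R'] (f : R →+* R') (n q r : ℕ) (u v : R) :
    f (S n q r u v) = S n q r (f u) (f v) := by
  simp [S, map_sum, map_mul, map_pow, map_natCast]

section field

variable {K : Type*} [Field K]

lemma g_eq {A : K} (hA : A ≠ 0) : g A = C A⁻¹ * mk (fun n => (-A⁻¹) ^ n) := by
  have h1 := g_mul hA
  have h2 : (X + C A) * (C A⁻¹ * mk (fun n => (-A⁻¹) ^ n) : K⟦X⟧) = 1 := by
    ext n
    rw [add_mul, map_add, mul_left_comm, coeff_C_mul, coeff_C_mul, coeff_C_mul, coeff_mk]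
    rcases n with _ | n
    · simp [hA]
    · rw [coeff_succ_X_mul, coeff_mk, coeff_one, if_neg (Nat.succ_ne_zero n), pow_succ]
      field_simp
      ring
  calc g A = g A * ((X + C A) * (C A⁻¹ * mk (fun n => (-A⁻¹) ^ n))) := by rw [h2, mul_one]
    _ = ((X + C A) * g A) * (C A⁻¹ * mk (fun n => (-A⁻¹) ^ n)) := by ring
    _ = _ := by rw [h1, one_mul]

lemma geo_pow (v : K) (d : ℕ) :
    (mk (fun n => v ^ n) : K⟦X⟧) ^ (d + 1) = mk (fun n => (Nat.choose (d + n) d : K) * v ^ n) := by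
  have h0 : (mk (fun n => v ^ n) : K⟦X⟧) = rescale v (mk 1) := by
    ext n
    simp [coeff_rescale]
  rw [h0, ← map_pow, mk_one_pow_eq_mk_choose_add]
  ext n
  simp [coeff_rescale, mul_comm]

lemma coeff_T {A B : K} (hA : A ≠ 0) (hB : B ≠ 0) (p q r : ℕ) :
    A ^ (p + q + 1) * B ^ (p + r + 1) *
      coeff (p + 1) (X * (g A ^ (q + 1) * g B ^ (r + 1)) : K⟦X⟧) = (-1) ^ p * S p q r A B := by
  rw [coeff_succ_X_mul, g_eq hA, g_eq hB, mul_pow, mul_pow, geo_pow, geo_pow, ← map_pow, ← map_pow,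
    show ∀ (a b c d : K⟦X⟧), a * b * (c * d) = a * (c * (b * d)) by intros; ring,
    coeff_C_mul, coeff_C_mul, coeff_mul, S, Finset.mul_sum, Finset.mul_sum, Finset.mul_sum,
    Finset.mul_sum]
  refine Finset.sum_congr rfl fun ij hij => ?_
  rw [Finset.HasAntidiagonal.mem_antidiagonal] at hij
  obtain ⟨i, j⟩ := ij
  simp only at hij ⊢
  subst hij
  rw [coeff_mk, coeff_mk, neg_pow, neg_pow B⁻¹]
  have e1 : A ^ (i + j + q + 1) = A ^ (q + 1) * A ^ i * A ^ j := by ring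
  have e2 : B ^ (i + j + r + 1) = B ^ (r + 1) * B ^ j * B ^ i := by ring
  rw [e1, e2, inv_pow, inv_pow, inv_pow, inv_pow]
  field_simp
  ring

/-- The identity over a field. -/
lemma S_id_field {x0 x1 x2 : K} (h : x0 + x1 + x2 = 0) (h0 : x0 ≠ 0) (h1 : x1 ≠ 0) (h2 : x2 ≠ 0)
    (p q r : ℕ) :
    (-1) ^ r * x0 ^ (q + r + 1) * S p q r x2 (-x1) + (-1) ^ p * x1 ^ (p + r + 1) * S q p r (-x2) x0 +
      (-1) ^ q * x2 ^ (p + q + 1) * S r p q x1 (-x0) = 0 := by
  have hT := T_eq (K := K) (p + q + r + 2) (a := -x1) (b := x0) (c := 0)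
    (by intro h'; apply h2; linear_combination h + h') (by simpa using h1) h0 (p + 1) (q + 1) (r + 1)
    (by ring)
  simp only [Nat.add_eq_zero_iff, OfNat.ofNat_ne_zero, and_false, if_false] at hT
  unfold T at hT
  have ea : -x1 - x0 = x2 := by linear_combination -h
  have eb : x0 - -x1 = -x2 := by linear_combination h
  rw [ea, eb, sub_zero, sub_zero, zero_sub, zero_sub, neg_neg] at hT
  have c1 := coeff_T h2 (neg_ne_zero.2 h1) p q r
  have c2 := coeff_T (neg_ne_zero.2 h2) h0 q p r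
  have c3 := coeff_T h1 (neg_ne_zero.2 h0) r p q
  generalize coeff (p + 1) (X * (g x2 ^ (q + 1) * g (-x1) ^ (r + 1))) = t1 at *
  generalize coeff (q + 1) (X * (g (-x2) ^ (p + 1) * g x0 ^ (r + 1))) = t2 at *
  generalize coeff (r + 1) (X * (g x1 ^ (p + 1) * g (-x0) ^ (q + 1))) = t3 at *
  have hm := congrArg (fun z => z * (x0 ^ (q + r + 1) * x1 ^ (p + r + 1) * x2 ^ (p + q + 1))) hT
  simp only [zero_mul] at hm
  have s1 : ∀ k : ℕ, ((-1 : K) ^ k) * (-1) ^ k = 1 := fun k => by rw [← mul_pow]; norm_num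
  have d1 : x0 ^ (q + r + 1) * x1 ^ (p + r + 1) * x2 ^ (p + q + 1) * t1 =
      (-1) ^ (r + 1) * x0 ^ (q + r + 1) * S p q r x2 (-x1) := by
    have : S p q r x2 (-x1) = (-1) ^ p * (x2 ^ (p + q + 1) * (-x1) ^ (p + r + 1) * t1) := by
      rw [c1, ← mul_assoc, s1, one_mul]
    rw [this, neg_pow x1, show p + r + 1 = p + (r + 1) by ring, pow_add (-1 : K) p (r + 1)]
    have := s1 p
    have := s1 (r + 1)
    linear_combination (exp := 1) (-(x0 ^ (q + r + 1) * x1 ^ (p + (r + 1)) * x2 ^ (p + q + 1) * t1)) *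
      ((-1) ^ (r + 1) * (-1) ^ (r + 1) * (s1 p) + s1 (r + 1))
  have d2 : x0 ^ (q + r + 1) * x1 ^ (p + r + 1) * x2 ^ (p + q + 1) * t2 =
      (-1) ^ (p + 1) * x1 ^ (p + r + 1) * S q p r (-x2) x0 := by
    have : S q p r (-x2) x0 = (-1) ^ q * ((-x2) ^ (q + p + 1) * x0 ^ (q + r + 1) * t2) := by
      rw [c2, ← mul_assoc, s1, one_mul]
    rw [this, neg_pow x2, show q + p + 1 = q + (p + 1) by ring, show p + q + 1 = q + (p + 1) by ring,
      pow_add (-1 : K) q (p + 1)]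
    linear_combination (exp := 1) (-(x0 ^ (q + r + 1) * x1 ^ (p + r + 1) * x2 ^ (q + (p + 1)) * t2)) *
      ((-1) ^ (p + 1) * (-1) ^ (p + 1) * (s1 q) + s1 (p + 1))
  have d3 : x0 ^ (q + r + 1) * x1 ^ (p + r + 1) * x2 ^ (p + q + 1) * t3 =
      (-1) ^ (q + 1) * x2 ^ (p + q + 1) * S r p q x1 (-x0) := by
    have : S r p q x1 (-x0) = (-1) ^ r * (x1 ^ (r + p + 1) * (-x0) ^ (r + q + 1) * t3) := by
      rw [c3, ← mul_assoc, s1, one_mul]
    rw [this, neg_pow x0, show r + q + 1 = r + (q + 1) by ring, show q + r + 1 = r + (q + 1) by ring,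
      show r + p + 1 = p + r + 1 by ring,
      pow_add (-1 : K) r (q + 1)]
    linear_combination (exp := 1) (-(x0 ^ (r + (q + 1)) * x1 ^ (p + r + 1) * x2 ^ (p + q + 1) * t3)) *
      ((-1) ^ (q + 1) * (-1) ^ (q + 1) * (s1 r) + s1 (q + 1))
  rw [pow_succ (-1 : K) r] at d1
  rw [pow_succ (-1 : K) p] at d2
  rw [pow_succ (-1 : K) q] at d3
  linear_combination (-1) * hm + d1 + d2 + d3

end field

end Pool.Agent.Helper19.UE
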