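import Mathlib

/-!
Sum of the residues of `1 / ((w - a) ^ p (w - b) ^ q (w - c) ^ r)`, in terms of power series.
-/

open PowerSeries

namespace Pool.Agent.Helper19.UE

variable {K : Type*} [Field K]

/-- The power series `1 / (X + A)`. -/
noncomputable def g (A : K) : K⟦X⟧ := (X + C A)⁻¹

lemma g_mul {A : K} (hA : A ≠ 0) : (X + C A) * g A = 1 :=
  PowerSeries.mul_inv_cancel _ (by simpa using hA)

/-- The sum of the three residues. -/
noncomputable def T (a b c : K) (p q r : ℕ) : K :=
  coeff p (X * (g (a - b) ^ q * g (a - c) ^ r)) + coeff q (X * (g (b - a) ^ p * g (b - c) ^ r)) +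
    coeff r (X * (g (c - a) ^ p * g (c - b) ^ q))

lemma T_swap (a b c : K) (p q r : ℕ) : T a b c p q r = T b a c q p r := by
  unfold T
  rw [mul_comm (g (c - a) ^ p)]
  ring

lemma T_swap' (a b c : K) (p q r : ℕ) : T a b c p q r = T a c b p r q := by
  unfold T
  rw [mul_comm (g (a - b) ^ q)]
  ring

lemma g_sub {A B : K} (hA : A ≠ 0) (hB : B ≠ 0) : C (B - A) * (g A * g B) = g A - g B := by
  have h1 := g_mul hA
  have h2 := g_mul hB
  rw [map_sub]
  linear_combination (g A) * h2 - (g B) * h1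

lemma T_rec {a b c : K} (hab : a ≠ b) (hac : a ≠ c) (hbc : b ≠ c) (p q r : ℕ) :
    (b - c) * T a b c p (q + 1) (r + 1) = T a b c p (q + 1) r - T a b c p q (r + 1) := by
  have hA : a - b ≠ 0 := sub_ne_zero.2 hab
  have hB : a - c ≠ 0 := sub_ne_zero.2 hac
  have hC : b - c ≠ 0 := sub_ne_zero.2 hbc
  have hD : c - b ≠ 0 := sub_ne_zero.2 (Ne.symm hbc)
  have h1 : (b - c) * coeff p (X * (g (a - b) ^ (q + 1) * g (a - c) ^ (r + 1))) =
      coeff p (X * (g (a - b) ^ (q + 1) * g (a - c) ^ r)) -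
        coeff p (X * (g (a - b) ^ q * g (a - c) ^ (r + 1))) := by
    have := g_sub hA hB
    rw [← coeff_C_mul, ← map_sub]
    congr 1
    have e : b - c = (a - c) - (a - b) := by ring
    rw [e]
    linear_combination (X * (g (a - b) ^ q * g (a - c) ^ r)) * this
  have h2 : (b - c) * coeff (q + 1) (X * (g (b - a) ^ p * g (b - c) ^ (r + 1))) =
      coeff (q + 1) (X * (g (b - a) ^ p * g (b - c) ^ r)) -
        coeff q (X * (g (b - a) ^ p * g (b - c) ^ (r + 1))) := by
    have := g_mul hC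
    rw [← coeff_C_mul, ← coeff_succ_X_mul q, ← map_sub]
    congr 1
    linear_combination (X * (g (b - a) ^ p * g (b - c) ^ r)) * this
  have h3 : (b - c) * coeff (r + 1) (X * (g (c - a) ^ p * g (c - b) ^ (q + 1))) =
      coeff r (X * (g (c - a) ^ p * g (c - b) ^ (q + 1))) -
        coeff (r + 1) (X * (g (c - a) ^ p * g (c - b) ^ q)) := by
    have := g_mul hD
    rw [← coeff_C_mul, ← coeff_succ_X_mul r, ← map_sub]
    congr 1
    have e : (C (b - c) : K⟦X⟧) = - C (c - b) := by rw [← map_neg]; congr 1; ring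
    rw [e]
    linear_combination (-X * (g (c - a) ^ p * g (c - b) ^ q)) * this
  unfold T
  rw [mul_add, mul_add, h1, h2, h3]
  ring

/-- Sum of the residues. -/
theorem T_eq (n : ℕ) : ∀ {a b c : K} (_ : a ≠ b) (_ : a ≠ c) (_ : b ≠ c) (p q r : ℕ),
    p + q + r = n + 1 → T a b c p q r = if n = 0 then 1 else 0 := by
  induction n with
  | zero =>
    intro a b c _ _ _ p q r h
    have : (p = 1 ∧ q = 0 ∧ r = 0) ∨ (p = 0 ∧ q = 1 ∧ r = 0) ∨ (p = 0 ∧ q = 0 ∧ r = 1) := by omega
    rcases this with ⟨rfl, rfl, rfl⟩ | ⟨rfl, rfl, rfl⟩ | ⟨rfl, rfl, rfl⟩ <;>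
      simp [T]
  | succ n ih =>
    have key : ∀ {a b c : K} (_ : a ≠ b) (_ : a ≠ c) (_ : b ≠ c) (p q r : ℕ),
        p + (q + 1) + (r + 1) = n + 1 + 1 → T a b c p (q + 1) (r + 1) = 0 := by
      intro a b c hab hac hbc p q r h
      have h0 := T_rec hab hac hbc p q r
      rw [ih hab hac hbc p (q + 1) r (by omega), ih hab hac hbc p q (r + 1) (by omega), sub_self]
        at h0
      exact (mul_eq_zero.1 h0).resolve_left (sub_ne_zero.2 hbc)
    intro a b c hab hac hbc p q r h
    simp only [Nat.succ_ne_zero, if_false]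
    rcases Nat.eq_zero_or_pos p with hp | hp
    · subst hp
      rcases Nat.eq_zero_or_pos q with hq | hq
      · subst hq
        have : r = n + 2 := by omega
        subst this
        simp [T, coeff_X]
      · obtain ⟨q, rfl⟩ : ∃ q', q = q' + 1 := ⟨q - 1, by omega⟩
        rcases Nat.eq_zero_or_pos r with hr | hr
        · subst hr
          have : q + 1 = n + 2 := by omega
          rw [this]
          simp [T, coeff_X]
        · obtain ⟨r, rfl⟩ : ∃ q', r = q' + 1 := ⟨r - 1, by omega⟩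
          exact key hab hac hbc _ _ _ (by omega)
    · obtain ⟨p, rfl⟩ : ∃ q', p = q' + 1 := ⟨p - 1, by omega⟩
      rcases Nat.eq_zero_or_pos q with hq | hq
      · subst hq
        rcases Nat.eq_zero_or_pos r with hr | hr
        · subst hr
          have : p + 1 = n + 2 := by omega
          rw [this]
          simp [T, coeff_X]
        · obtain ⟨r, rfl⟩ : ∃ q', r = q' + 1 := ⟨r - 1, by omega⟩
          rw [T_swap]
          exact key (Ne.symm hab) hbc hac _ _ _ (by omega)
      · obtain ⟨q, rfl⟩ : ∃ q', q = q' + 1 := ⟨q - 1, by omega⟩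
        rw [T_swap', T_swap]
        exact key (Ne.symm hac) (Ne.symm hbc) hab _ _ _ (by omega)

end Pool.Agent.Helper19.UE
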